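import Pool.Agent.N984.QX.Stm

/-! Project QX (helper984): the number of isotropic vectors supported in a set (`S_ISO`), by helper432. -/

set_option autoImplicit false

namespace Pool.Agent.N432.QX

open Pool.Agent.N984.QX Finset

/-- the sign of an element of `ZMod 2` -/
def chi (x : ZMod 2) : ℤ := if x = 0 then 1 else -1

theorem chi_add (x y : ZMod 2) : chi (x + y) = chi x * chi y := by
  revert x y
  decide

theorem chi_sum {ι : Type} (s : Finset ι) (f : ι → ZMod 2) :
    chi (∑ i ∈ s, f i) = ∏ i ∈ s, chi (f i) := by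
  classical
  induction s using Finset.induction_on with
  | empty => simp [chi]
  | insert a s ha ih => rw [sum_insert ha, prod_insert ha, chi_add, ih]

/-- the norm form -/
def qf (x : ZMod 2 × ZMod 2) : ZMod 2 := x.1 * (x.1 + x.2) + x.2 * x.2

theorem B_J {n : ℕ} (v : Vc n) : B v (J v) = ∑ i, qf (v i) := rfl

theorem t_ISO : S_ISO := by
  classical
  intro n A
  let g : Fin n → ZMod 2 × ZMod 2 → ℤ := fun i x => if i ∈ A ∨ x = 0 then 1 else 0
  let h : Fin n → ZMod 2 × ZMod 2 → ℤ := fun i x => g i x * chi (qf x)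
  have h1 : (Set.ncard {v : Vc n | (∀ i, i ∉ A → v i = 0) ∧ B v (J v) = 0} : ℤ) =
      ∑ v : Vc n, if (∀ i, i ∉ A → v i = 0) ∧ B v (J v) = 0 then (1 : ℤ) else 0 := by
    rw [Set.ncard_eq_toFinset_card', Finset.sum_boole]
    congr 2
    ext v
    simp
  have h2 : ∀ v : Vc n, 2 * (if (∀ i, i ∉ A → v i = 0) ∧ B v (J v) = 0 then (1 : ℤ) else 0) =
      ∏ i, g i (v i) + ∏ i, h i (v i) := by
    intro v
    by_cases hP : ∀ i, i ∉ A → v i = 0
    · have hg : ∀ i, g i (v i) = 1 := by
        intro i
        by_cases hi : i ∈ A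
        · simp [g, hi]
        · simp [g, hP i hi]
      have hh : ∀ i, h i (v i) = chi (qf (v i)) := by
        intro i
        simp only [h, hg, one_mul]
      rw [prod_congr rfl (fun i _ => hg i), prod_congr rfl (fun i _ => hh i), ← chi_sum, ← B_J,
        prod_const_one]
      by_cases hQ : B v (J v) = 0
      · rw [if_pos ⟨hP, hQ⟩, hQ]
        simp [chi]
      · simp [hQ, chi]
    · have hP' := hP
      push Not at hP
      obtain ⟨i, hi, hvi⟩ := hP
      have hg : g i (v i) = 0 := by simp [g, hi, hvi]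
      have hh : h i (v i) = 0 := by simp only [h, hg, zero_mul]
      rw [prod_eq_zero (mem_univ i) hg, prod_eq_zero (mem_univ i) hh]
      rw [if_neg (fun hcon => hP' hcon.1)]
      norm_num
  have h3 : ∀ f : Fin n → ZMod 2 × ZMod 2 → ℤ, ∑ v : Vc n, ∏ i, f i (v i) = ∏ i, ∑ x, f i x := by
    intro f
    rw [Finset.prod_univ_sum, Fintype.piFinset_univ]
  have h4 : ∀ i, ∑ x, g i x = if i ∈ A then 4 else 1 := by
    intro i
    by_cases hi : i ∈ A
    · simp only [g, hi, true_or, if_true]
      rfl
    · simp only [g, hi, false_or, if_false]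
      simp
  have h5 : ∀ i, ∑ x, h i x = if i ∈ A then (-2) else 1 := by
    intro i
    by_cases hi : i ∈ A
    · simp only [h, g, hi, true_or, if_true, one_mul]
      decide
    · simp only [h, g, hi, false_or, if_false]
      have : ∀ x : ZMod 2 × ZMod 2, (if x = 0 then (1 : ℤ) else 0) * chi (qf x) =
          if x = 0 then 1 else 0 := by decide
      rw [sum_congr rfl (fun x _ => this x)]
      simp
  rw [h1, mul_sum, sum_congr rfl (fun v _ => h2 v), sum_add_distrib, h3, h3,
    prod_congr rfl (fun i _ => h4 i), prod_congr rfl (fun i _ => h5 i), Finset.prod_ite_mem,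
    Finset.prod_ite_mem]
  simp

end Pool.Agent.N432.QX
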